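import Pool.Agent.H39.Newt2.Stmts

/-!
# NEWTON2, module TEA: the telescoping product
-/

set_option autoImplicit false

namespace Pool.Newt2

open Classical in
theorem sTea : STea := by
  intro Ξ _ s φ
  letI : LinearOrder Ξ := LinearOrder.lift' (Fintype.equivFin Ξ) (Fintype.equivFin Ξ).injective
  refine ⟨fun ξ ξ' => if ξ' < ξ then (fun v => φ ξ' (v - s ξ')) else
    if ξ' = ξ then (fun v => φ ξ' v - φ ξ' (v - s ξ')) else φ ξ', ?_, ?_, ?_⟩
  · intro v
    have h := Finset.prod_sub_ordered (Finset.univ : Finset Ξ) (fun ξ => φ ξ (v ξ))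
      (fun ξ => φ ξ (v ξ) - φ ξ (v ξ - s ξ))
    simp only [sub_sub_cancel] at h
    rw [h, sub_sub_cancel]
    refine Finset.sum_congr rfl fun ξ _ => ?_
    rw [← Finset.prod_filter_mul_prod_filter_not Finset.univ (fun ξ' => ξ' < ξ)
      (fun ξ' => (if ξ' < ξ then (fun v => φ ξ' (v - s ξ')) else
        if ξ' = ξ then (fun v => φ ξ' v - φ ξ' (v - s ξ')) else φ ξ') (v ξ'))]
    have e1 : ∏ ξ' ∈ Finset.univ.filter (fun ξ' => ξ' < ξ),
        (if ξ' < ξ then (fun v => φ ξ' (v - s ξ')) else
        if ξ' = ξ then (fun v => φ ξ' v - φ ξ' (v - s ξ')) else φ ξ') (v ξ') =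
        ∏ ξ' ∈ Finset.univ.filter (fun ξ' => ξ' < ξ), φ ξ' (v ξ' - s ξ') := by
      refine Finset.prod_congr rfl fun ξ' h' => ?_
      rw [if_pos (Finset.mem_filter.1 h').2]
    have e2 : Finset.univ.filter (fun ξ' => ¬ ξ' < ξ) =
        insert ξ (Finset.univ.filter (fun ξ' => ξ < ξ')) := by
      ext ξ'
      simp only [Finset.mem_filter, Finset.mem_univ, true_and, Finset.mem_insert, not_lt]
      constructor
      · intro h'
        rcases h'.eq_or_lt with h'' | h''
        · exact Or.inl h''.symm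
        · exact Or.inr h''
      · rintro (h' | h')
        · exact h'.symm.le
        · exact h'.le
    have e3 : ∏ ξ' ∈ Finset.univ.filter (fun ξ' => ξ < ξ'),
        (if ξ' < ξ then (fun v => φ ξ' (v - s ξ')) else
        if ξ' = ξ then (fun v => φ ξ' v - φ ξ' (v - s ξ')) else φ ξ') (v ξ') =
        ∏ ξ' ∈ Finset.univ.filter (fun ξ' => ξ < ξ'), φ ξ' (v ξ') := by
      refine Finset.prod_congr rfl fun ξ' h' => ?_
      have h'' := (Finset.mem_filter.1 h').2
      rw [if_neg h''.not_gt, if_neg h''.ne']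
    rw [e1, e2, Finset.prod_insert (by simp), e3, if_neg (lt_irrefl ξ), if_pos rfl]
    ring
  · intro ξ
    simp only [lt_irrefl, if_false, if_true]
  · intro ξ ξ'
    unfold Var
    by_cases h1 : ξ' < ξ
    · right; left
      simp only [if_pos h1]
    · by_cases h2 : ξ' = ξ
      · right; right
        simp only [if_neg h1, if_pos h2]
      · left
        simp only [if_neg h1, if_neg h2]

end Pool.Newt2
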